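import Mathlib
import Pool.Agent.MP_187b32_an.PD.Spec
import Pool.Agent.MP_187b32_an.Prof.Outer

/-!
The inner part of the profile is built from pieces.
-/

set_option autoImplicit false

open Set Filter Topology
open scoped ContDiff

namespace Pool.Agent.MP_187b32_an.PD.Disc

section
variable {R : Type} [CommRing R]

def AF (m e x r u : R) : R := 2 * m * (e - x * ((1 + u) * (r + 2 * u) - e * (u * (r + u))))
def NF (ρ m κ r u : R) : R := ρ * (m * ((1 + u) * (u * (r + u))) - (1 - κ) * (u + r - 1))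
def c1 (x w g : R) : R := 1 - 2 * x * (x * (1 + w) * g)
def c2 (r x w : R) : R := 1 + x * (w * (r + w))
def c3 (r x w g : R) : R := w * (r + w) + 2 * (x * (1 + w) * g)
def f2 (l x w g : R) : R := (1 + w - l) * c1 x w g
def f1 (l r x w g : R) : R := f2 l x w g + 2 * x * g * c2 r x w

end

/-- The differential equation. -/
def Ode (e r x w g : ℝ) : Prop := AF x e x r w * g = NF 1 x 0 r w

/-- The inequalities. -/
def Chk (l r x w g : ℝ) : Prop := ∃ k, 4 / 3 * x ≤ k ^ 2 ∧ 0 < c1 x w g ∧ 0 < c2 r x w ∧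
  0 < f1 l r x w g + k * c3 r x w g ∧ 0 < f1 l r x w g - k * c3 r x w g ∧
  0 < f2 l x w g + k * c3 r x w g ∧ 0 < f2 l x w g - k * c3 r x w g

/-- A solution up to `c` with the value `w`. -/
def InnerTo (l e r c w : ℝ) : Prop :=
  ∃ (δ : ℝ) (W : ℝ → ℝ), 0 < δ ∧ ContDiffOn ℝ ∞ W (Ioo (-δ) (c + δ)) ∧
    (∀ x ∈ Ioo (-δ) (c + δ), Ode e r x (W x) (deriv W x)) ∧
    (∀ x ∈ Icc 0 c, Chk l r x (W x) (deriv W x)) ∧ W c = w

/-- A piece of solution around `c`. -/
def Pc (l e r c ρ c' : ℝ) (U : ℝ → ℝ) : Prop :=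
  ContDiffOn ℝ ∞ U (Ioo (c - ρ) (c + ρ)) ∧
    (∀ x ∈ Ioo (c - ρ) (c + ρ), Ode e r x (U x) (deriv U x)) ∧
    ∀ x ∈ Icc c c', Chk l r x (U x) (deriv U x)

variable {l e r c ρ c' w : ℝ} {U : ℝ → ℝ}

lemma Pc.start (h : Pc l e r 0 ρ c' U) (h0 : 0 ≤ c') (h1 : c' < ρ) : InnerTo l e r c' (U c') := by
  have hs : Ioo (-(ρ - c')) (c' + (ρ - c')) ⊆ Ioo (0 - ρ) (0 + ρ) :=
    Ioo_subset_Ioo (by linarith) (by linarith)
  exact ⟨ρ - c', U, by linarith, h.1.mono hs, fun x hx => h.2.1 x (hs hx), h.2.2, rfl⟩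

lemma Pc.extend (h : Pc l e r c ρ c' U) (hW : InnerTo l e r c (U c)) (hc : 0 ≤ c) (h0 : c ≤ c')
    (h1 : c' < c + ρ) (hA : AF c e c r (U c) ≠ 0) : InnerTo l e r c' (U c') := by
  classical
  obtain ⟨δ, W, hδ, cW, oW, kW, eW⟩ := hW
  obtain ⟨cU, oU, kU⟩ := h
  let V : ℝ → ℝ := fun x => if x ≤ c then W x else U x
  have v1 : ∀ x, x ≤ c → V x = W x := fun x hx => if_pos hx
  have v2 : ∀ x, c ≤ x → V x = U x := fun x hx => by
    rcases hx.eq_or_lt with rfl | hx
    · rw [v1 _ le_rfl, eW]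
    · exact if_neg hx.not_ge
  have e1 : ∀ x, x < c → V =ᶠ[𝓝 x] W := fun x hx =>
    mem_of_superset (Iio_mem_nhds hx) fun t ht => v1 t (le_of_lt ht)
  have e2 : ∀ x, c < x → V =ᶠ[𝓝 x] U := fun x hx =>
    mem_of_superset (Ioi_mem_nhds hx) fun t ht => v2 t (le_of_lt ht)
  have nW : Ioo (-δ) (c + δ) ∈ 𝓝 c := Ioo_mem_nhds (by linarith) (by linarith)
  have nU : Ioo (c - ρ) (c + ρ) ∈ 𝓝 c := Ioo_mem_nhds (by linarith) (by linarith)
  have loc : ∀ {Z : ℝ → ℝ} {S : Set ℝ}, IsOpen S → c ∈ S → ContDiffOn ℝ ∞ Z S →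
      (∀ x ∈ S, Ode e r x (Z x) (deriv Z x)) → Z c = U c → ∀ᶠ x in 𝓝 c, AF x e x r (Z x) ≠ 0 ∧
        HasDerivAt Z (NF 1 x 0 r (Z x) / AF x e x r (Z x)) x := by
    intro Z S hS hcS cZ oZ eZ
    have a1 : ContinuousAt (fun x => AF x e x r (Z x)) c := by
      have := (cZ.contDiffAt (hS.mem_nhds hcS)).continuousAt
      unfold AF
      fun_prop
    filter_upwards [a1.eventually_ne (y := 0) (by rwa [eZ]), hS.mem_nhds hcS] with x a2 a3
    refine ⟨a2, ((cZ.contDiffAt (hS.mem_nhds a3)).differentiableAt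
      (by simp)).hasDerivAt.congr_deriv ?_⟩
    rw [eq_div_iff a2, mul_comm]
    exact oZ x a3
  obtain ⟨ε, hε, hl⟩ := Metric.eventually_nhds_iff.1
    ((loc isOpen_Ioo (mem_of_mem_nhds nW) cW oW eW).and
      (loc isOpen_Ioo (mem_of_mem_nhds nU) cU oU rfl))
  have hV : ∀ x ∈ Metric.ball c ε, AF x e x r (V x) ≠ 0 ∧
      HasDerivAt V (NF 1 x 0 r (V x) / AF x e x r (V x)) x := fun x hx => by
    obtain ⟨⟨a1, a2⟩, a3, a4⟩ := hl hx
    rcases lt_trichotomy x c with h | rfl | h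
    · rw [v1 x h.le]
      exact ⟨a1, a2.congr_of_eventuallyEq (e1 x h)⟩
    · rw [v2 x le_rfl]
      rw [eW] at a2
      have b1 := (a2.hasDerivWithinAt (s := Iic x)).congr (fun t ht => v1 t ht) (v1 x le_rfl)
      have b2 := (a4.hasDerivWithinAt (s := Ici x)).congr (fun t ht => v2 t ht) (v2 x le_rfl)
      have b3 := b1.union b2
      rw [Iic_union_Ici, hasDerivWithinAt_univ] at b3
      exact ⟨a3, b3⟩
    · rw [v2 x h.le]
      exact ⟨a3, a4.congr_of_eventuallyEq (e2 x h)⟩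
  have cV : ContDiffOn ℝ ∞ V (Metric.ball c ε) :=
    Prof.boot Metric.isOpen_ball (G := fun p => NF 1 p.1 0 r p.2 / AF p.1 e p.1 r p.2)
      (fun x hx => (hV x hx).2) fun x hx =>
        ContDiffAt.div (by unfold NF; fun_prop) (by unfold AF; fun_prop) (hV x hx).1
  have d2 : ∀ x, c ≤ x → deriv V x = deriv U x := fun x hx => by
    rcases hx.eq_or_lt with rfl | hx
    · rw [(hV _ (Metric.mem_ball_self hε)).2.deriv, (hl (Metric.mem_ball_self hε)).2.2.deriv,
        v2 _ le_rfl]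
    · exact (e2 x hx).deriv_eq
  have m1 := min_le_left δ (c + ρ - c')
  have m2 := min_le_right δ (c + ρ - c')
  refine ⟨min δ (c + ρ - c'), V, lt_min hδ (by linarith), fun x hx => ?_, fun x hx => ?_,
    fun x hx => ?_, v2 _ h0⟩
  · rcases lt_trichotomy x c with h | rfl | h
    · exact ((cW.contDiffAt (Ioo_mem_nhds (by linarith [hx.1]) (by linarith))).congr_of_eventuallyEq
        (e1 x h)).contDiffWithinAt
    · exact (cV.contDiffAt (Metric.ball_mem_nhds _ hε)).contDiffWithinAt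
    · exact ((cU.contDiffAt (Ioo_mem_nhds (by linarith) (by linarith [hx.2]))).congr_of_eventuallyEq
        (e2 x h)).contDiffWithinAt
  · rcases lt_or_ge x c with h | h
    · rw [v1 x h.le, (e1 x h).deriv_eq]
      exact oW x ⟨by linarith [hx.1], by linarith⟩
    · rw [v2 x h, d2 x h]
      exact oU x ⟨by linarith, by linarith [hx.2]⟩
  · rcases lt_or_ge x c with h | h
    · rw [v1 x h.le, (e1 x h).deriv_eq]
      exact kW x ⟨hx.1, h.le⟩
    · rw [v2 x h, d2 x h]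
      exact kU x ⟨h, hx.2⟩

lemma sq_aux {x k f m d : ℝ} (hd : 0 < d) (hk : 4 / 3 * x ≤ k ^ 2) (h1 : 0 < f + k * m)
    (h2 : 0 < f - k * m) : 0 < f / d ∧ 4 / 3 * x * (-m / d) ^ 2 ≤ (f / d) ^ 2 := by
  refine ⟨div_pos (by linarith) hd, ?_⟩
  rw [div_pow, div_pow, ← mul_div_assoc]
  refine div_le_div_of_nonneg_right ?_ (by positivity)
  nlinarith [mul_pos h1 h2, mul_le_mul_of_nonneg_right hk (sq_nonneg m)]

theorem InnerTo.inner (h : InnerTo l e r 1 w) (hl : 0 < l) : Inner e r 1 w := by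
  obtain ⟨δ, W, hδ, cW, oW, kW, eW⟩ := h
  have cD : ContDiffOn ℝ ∞ (deriv W) (Ioo (-δ) (1 + δ)) := cW.deriv_of_isOpen isOpen_Ioo (by simp)
  have c0 : ContDiffOn ℝ ∞ (fun x => c1 x (W x) (deriv W x)) (Ioo (-δ) (1 + δ)) := by
    unfold c1
    fun_prop
  have hpos : ∀ x ∈ Icc (0 : ℝ) 1, 0 < c1 x (W x) (deriv W x) := fun x hx => by
    obtain ⟨k, -, h, -⟩ := kW x hx
    exact h
  have ho : IsOpen (Ioo (-δ) (1 + δ) ∩ (fun x => c1 x (W x) (deriv W x)) ⁻¹' Ioi 0) :=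
    c0.continuousOn.isOpen_inter_preimage isOpen_Ioo isOpen_Ioi
  obtain ⟨ε, hε, hs⟩ := (isCompact_Icc (a := (0 : ℝ)) (b := 1)).exists_thickening_subset_open ho
    fun x hx => ⟨⟨by linarith [hx.1], by linarith [hx.2]⟩, hpos x hx⟩
  have hs' : ∀ x ∈ Ioo (-ε) (1 + ε), x ∈ Ioo (-δ) (1 + δ) ∧ 0 < c1 x (W x) (deriv W x) :=
    fun x hx => hs (Metric.mem_thickening_iff.2 ⟨max 0 (min x 1), ⟨le_max_left _ _,
      max_le zero_le_one (min_le_right _ _)⟩, by
        rw [Real.dist_eq, abs_lt]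
        rcases le_total x 0 with a | a
        · rw [max_eq_left ((min_le_left _ _).trans a)]
          constructor <;> linarith [hx.1]
        · rcases le_total x 1 with b | b
          · rw [min_eq_left b, max_eq_right a]
            constructor <;> linarith
          · rw [min_eq_right b, max_eq_right zero_le_one]
            constructor <;> linarith [hx.2]⟩)
  have hsub : Ioo (-ε) (1 + ε) ⊆ Ioo (-δ) (1 + δ) := fun x hx => (hs' x hx).1
  let mu : ℝ → ℝ := fun x => -c3 r x (W x) (deriv W x) / c1 x (W x) (deriv W x)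
  have hT : ∀ x, c1 x (W x) (deriv W x) ≠ 0 →
      1 - x * mu x = c2 r x (W x) / c1 x (W x) (deriv W x) := fun x hx => by
    simp only [mu]
    field_simp
    unfold c1 c2 c3
    ring
  unfold Inner
  rw [one_pow, inv_one]
  refine ⟨ε, l, W, mu, hε, hl, cW.mono hsub, ?_, fun x hx => ?_, fun x hx => ?_, by rw [eW, one_mul]⟩
  · refine ContDiffOn.div ?_ (c0.mono hsub) fun x hx => (hs' x hx).2.ne'
    have := cW.mono hsub
    have := cD.mono hsub
    unfold c3
    fun_prop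
  · have a1 := (hs' x hx).2.ne'
    have a2 := oW x (hsub hx)
    unfold Eqs AA
    rw [hT x a1]
    simp only [mu]
    constructor
    · field_simp
      unfold c1 c2 c3
      ring
    · field_simp
      unfold Ode AF NF at a2
      unfold c1 c2 c3
      linear_combination a2
  · obtain ⟨k, b0, b1, b2, b3, b4, b5, b6⟩ := kW x hx
    have a1 : 1 + AA W mu x - l = f1 l r x (W x) (deriv W x) / c1 x (W x) (deriv W x) := by
      unfold AA f1 f2
      rw [hT x b1.ne']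
      field_simp
      ring
    have a2 : 1 + W x - l = f2 l x (W x) (deriv W x) / c1 x (W x) (deriv W x) := by
      unfold f2
      field_simp
    obtain ⟨a3, a4⟩ := sq_aux b1 b0 b3 b4
    obtain ⟨a5, a6⟩ := sq_aux b1 b0 b5 b6
    exact ⟨by rw [hT x b1.ne']; exact div_pos b2 b1, by linarith, by linarith,
      by rw [a1]; exact a4, by rw [a2]; exact a6⟩

end Pool.Agent.MP_187b32_an.PD.Disc
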