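import Pool.Agent.MP_187b32_an.PD.Disc.Pack
import Pool.Agent.MP_187b32_an.PD.Disc.Ser
import Pool.Agent.MP_187b32_an.PD.Disc.Inn

/-!
The data of one disc and the certified bounds for the normal form.
-/

set_option autoImplicit false

open PowerSeries Finset

namespace Pool.Agent.MP_187b32_an.PD.Disc

open Prof

/-- Power series with the truncated norm. -/
noncomputable def cxS {η : ℝ} (h : |η| ≤ 1) (m : ℕ) : Cx ℝ⟦X⟧ where
  ν := nm 1 m
  η := C η
  ξ := X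
  sn := ⟨by simp [nm], by simpa using nm_C (m := m) zero_le_one 1, nm_nonneg zero_le_one,
    nm_add zero_le_one, nm_mul zero_le_one, fun a => (nm_neg a).le⟩
  alg r := nm_C zero_le_one r
  hη := (nm_C zero_le_one η).trans h
  hξ := nm_X zero_le_one

section
variable {A : Type} [CommRing A] [Algebra ℝ A]

noncomputable def pv (e x : A) (k : ℕ) (L : List (List ℤ)) : A := i2 A k * (polV e x L).1
noncomputable def pd (e x : A) (k : ℕ) (L : List (List ℤ)) : A := i2 A k * (polV e x L).2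
noncomputable def rv (e : A) (k : ℕ) (l : List ℤ) : A := i2 A k * rowV e l

end

def pC (w : ℕ) (x : CP) (k : ℕ) (L : List (List ℤ)) : CP := (polC (CP.ve w) x L).1.dv k
def dC (w : ℕ) (x : CP) (k : ℕ) (L : List (List ℤ)) : CP := (polC (CP.ve w) x L).2.dv k
def rC (w k : ℕ) (l : List ℤ) : CP := (rowC (CP.ve w) l).dv k

section
variable {A : Type} [CommRing A] [Algebra ℝ A] {w1 w2 : ℕ} {η ξ x : A} {c : CP}

lemma is_pC (h : Is w1 w2 η ξ c x) (k : ℕ) (L : List (List ℤ)) :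
    Is w1 w2 η ξ (pC w1 c k L) (pv η x k L) := (is_pol h L).1.dv k

lemma is_dC (h : Is w1 w2 η ξ c x) (k : ℕ) (L : List (List ℤ)) :
    Is w1 w2 η ξ (dC w1 c k L) (pd η x k L) := (is_pol h L).2.dv k

lemma is_rC (k : ℕ) (l : List ℤ) : Is w1 w2 η ξ (rC w1 k l) (rv η k l) := (is_row l).dv k

end

lemma rowV_C (η : ℝ) (l : List ℤ) : rowV (C η : ℝ⟦X⟧) l = C (rowV η l) := by
  induction l with
  | nil => simp [rowV]
  | cons c l ih =>
    simp only [rowV, map_add, map_mul, map_intCast, ih]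

lemma i2_C (k : ℕ) : i2 ℝ⟦X⟧ k = C (i2 ℝ k) := rfl

lemma rv_C (η : ℝ) (k : ℕ) (l : List ℤ) : rv (C η : ℝ⟦X⟧) k l = C (rv η k l) := by
  rw [rv, rv, rowV_C, i2_C, map_mul]

lemma pv_zero (η : ℝ) (k : ℕ) (L : List (List ℤ)) :
    constantCoeff (pv (C η : ℝ⟦X⟧) X k L) = rv η k (L.headD []) := by
  cases L with
  | nil => simp [pv, rv, polV, rowV]
  | cons r L => simp [pv, rv, polV, rowV_C, i2_C]

lemma pv_deriv (η : ℝ) (k : ℕ) (L : List (List ℤ)) :
    d⁄dX ℝ (pv (C η : ℝ⟦X⟧) X k L) = pd (C η) X k L := by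
  have : d⁄dX ℝ (polV (C η : ℝ⟦X⟧) X L).1 = (polV (C η) X L).2 := by
    induction L with
    | nil => simp [polV]
    | cons r L ih =>
      simp only [polV, rowV_C, map_add, Derivation.leibniz, ih, derivative_C, derivative_X,
        smul_eq_mul]
      ring
  rw [pv, pd, i2_C, Derivation.leibniz, this, derivative_C]
  simp

lemma pv_th (η : ℝ) (k : ℕ) (L : List (List ℤ)) :
    th (pv (C η : ℝ⟦X⟧) X k L) = X * pd (C η) X k L := by rw [th, pv_deriv]

lemma hs_pv (η s : ℝ) (k : ℕ) (L : List (List ℤ)) :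
    HS s (pv (C η) X k L) (pv η s k L) ∧ HS s (pd (C η) X k L) (pd η s k L) := by
  have : HS s (polV (C η) X L).1 (polV η s L).1 ∧ HS s (polV (C η) X L).2 (polV η s L).2 := by
    induction L with
    | nil => exact ⟨by simpa [polV] using hs_C s 0, by simpa [polV] using hs_C s 0⟩
    | cons r L ih =>
      simp only [polV, rowV_C]
      exact ⟨(hs_C s _).add ((hs_X s).mul ih.1), ih.1.add ((hs_X s).mul ih.2)⟩
  exact ⟨(hs_C s _).mul this.1, (hs_C s _).mul this.2⟩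

/-- Global data: the cell of `e`, the approximate `r`, the shooting range, the repulsivity. -/
structure Gl where
  ec : ℚ
  e0 : ℚ
  rl : List ℤ
  kr : ℕ
  T0 : ℕ
  l : ℚ

/-- The data of one disc. -/
structure Dk where
  wz : Bool
  ρ : ℚ
  h : ℚ
  kv : ℕ
  kw : ℕ
  V : List (List ℤ)
  Z : List (List ℤ)
  E1 : List (List ℤ)
  W : List (List ℤ)
  y : List ℤ
  β1 : List ℤ
  lc : ℚ
  τ : ℕ
  Λ : ℚ
  n0 : ℕ
  w1 : ℕ
  w2 : ℕ
  wj : ℕ
  wp : ℕ
  wq : ℕ
  nl : ℕ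
  ml : ℕ
  sub : List (ℚ × ℚ)

def Gl.eC (g : Gl) (w : ℕ) : CP :=
  if g.e0 = 0 then CP.rat g.ec else (CP.rat g.ec).add ((CP.rat g.e0).mul (CP.ve w))

noncomputable def Gl.e (g : Gl) (η : ℝ) : ℝ := g.ec + g.e0 * η
noncomputable def Gl.r (g : Gl) (η : ℝ) : ℝ := rv η g.kr g.rl

lemma Gl.is_e (g : Gl) {A : Type} [CommRing A] [Algebra ℝ A] {w1 w2 : ℕ} (η : ℝ) {ξ : A} :
    Is w1 w2 (algebraMap ℝ A η) ξ (g.eC w1) (algebraMap ℝ A (g.e η)) := by
  unfold Gl.eC Gl.e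
  split_ifs with h
  · simpa [h] using is_rat g.ec
  · simpa using (is_rat g.ec).add ((is_rat g.e0).mul is_ve)

def eA : Ex := .int 2 * .var 6 * (.var 4 - .var 5 * ((.int 1 + .var 1) * (.var 3 + .int 2 * .var 1)
  - .var 4 * (.var 1 * (.var 3 + .var 1))))
def eN : Ex := .var 8 * (.var 6 * ((.int 1 + .var 1) * (.var 1 * (.var 3 + .var 1)))
  - (.int 1 - .var 7) * (.var 1 + .var 3 - .int 1))
def eG : Ex := eA * .var 2 + .var 7 * (.var 1 + .var 3 - .int 1) - .var 0 * eN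

section
variable {R : Type} [CommRing R]

lemma ev_add' (env : List R) (a b : Ex) : (a + b).ev env = a.ev env + b.ev env := rfl
lemma ev_mul' (env : List R) (a b : Ex) : (a * b).ev env = a.ev env * b.ev env := rfl
lemma ev_sub' (env : List R) (a b : Ex) : (a - b).ev env = a.ev env - b.ev env :=
  (sub_eq_add_neg _ _).symm

variable (X u d r e x m κ ρ : R)

lemma ev_eA : eA.ev [X, u, d, r, e, x, m, κ, ρ] = AF m e x r u := by
  simp [eA, AF, ev_mul', ev_sub', Ex.ev]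

lemma ev_eG : eG.ev [X, u, d, r, e, x, m, κ, ρ] =
    AF m e x r u * d + κ * (u + r - 1) - X * NF ρ m κ r u := by
  simp [eG, eA, eN, AF, NF, ev_sub', Ex.ev]

end

def kI (c : ℚ) : ℤ := if c = 0 then 1 else 0
def ex (c : CP) : BL := (c, 0)
def BL.sub (a b : BL) : BL := a.add b.neg
def zB : BL := (CP.int 0, 0)

lemma Cx.In.sub {A : Type} [CommRing A] [Algebra ℝ A] {K : Cx A} {w1 w2 : ℕ} {a b : BL} {x y : A}
    (h1 : K.In w1 w2 a x) (h2 : K.In w1 w2 b y) : K.In w1 w2 (a.sub b) (x - y) := by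
  rw [sub_eq_add_neg]
  exact h1.add h2.neg

namespace Dk

variable (D : Dk) (g : Gl) (c : ℚ)

def E : List (List ℤ) := [((2 ^ D.kw : ℕ) : ℤ)] :: D.E1
def β : List ℤ := if D.wz then D.β1 else []
def sI : ℤ := if D.wz then 1 else 0
def cX : CP := CP.vx D.w2
def bX : BL := ex D.cX
def bp (k : ℕ) (L : List (List ℤ)) : BL := ex (pC D.w1 D.cX k L)
def bd (k : ℕ) (L : List (List ℤ)) : BL := ex (dC D.w1 D.cX k L)
def br (k : ℕ) (l : List ℤ) : BL := ex (rC D.w1 k l)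
def cx : CP := (CP.rat c).add ((CP.rat D.ρ).mul D.cX)
def cst : List BL := [ex (g.eC D.w1), ex (D.cx c), ex (if c = 0 then CP.int 1 else D.cx c),
  ex (CP.int (kI c)), ex (CP.rat D.ρ)]
def bb : BL := (D.bp D.kv D.V).add (BL.mul (CP.int 0, g.T0) (D.bp D.kw D.Z))
def bb' : BL := (D.bd D.kv D.V).add (BL.mul (CP.int 0, g.T0) (D.bd D.kw D.Z))
def bv (τ : ℕ) : BL := (D.bb g).add ((D.bp D.kw D.E).mul (CP.int 0, τ))
def bR : BL := (D.br g.kr g.rl).add (CP.int 0, g.T0)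
def α : BL := (ex (CP.int (kI c))).mul (D.br D.kw (D.W.headD []))

def k1 (τ : ℕ) : ℕ :=
  (((D.α c).add (D.bX.mul (D.br D.kw D.β))).sub ((D.bp D.kw D.W).mul (exD ((D.bX, zB) ::
    (D.bv g τ, D.bp D.kw D.E) :: ((D.bX.mul (D.bb' g)).add ((D.bX.mul (D.bd D.kw D.E)).mul
      (CP.int 0, τ)), D.bX.mul (D.bd D.kw D.E)) :: (D.bR g, zB) ::
        (D.cst g c).map fun b => (b, zB)) eG).2)).up D.w1 D.w2

def k2 (τ : ℕ) : ℕ :=
  (((D.br D.kw D.y).sub (D.bX.mul (ex (CP.int D.sI)))).sub (((D.bp D.kw D.W).mul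
    (exB (D.bX :: D.bv g τ :: D.bX :: D.bR g :: D.cst g c) eA)).mul (D.bp D.kw D.E))).up D.w1 D.w2

def r1 : BL := ((D.bp D.kw D.W).mul (exB (D.bX :: D.bp D.kv D.V :: D.bX.mul (D.bd D.kv D.V) ::
  D.br g.kr g.rl :: D.cst g c) eG)).tight D.w1 D.w2

def r2 : BL := (((D.bp D.kw D.W).mul (exD ((D.bX, zB) :: (D.bb g, D.bp D.kw D.Z) ::
    (D.bX.mul (D.bb' g), D.bX.mul (D.bd D.kw D.Z)) :: (D.bR g, ex (CP.int 1)) ::
      (D.cst g c).map fun b => (b, zB)) eG).2).sub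
  ((D.α c).mul ((D.br D.kw (D.Z.headD [])).add (ex (CP.int 1))))).tight D.w1 D.w2

def r0 : ℕ := ((D.r1 g c).add ((D.r2 g c).mul (CP.int 0, g.T0))).up D.w1 D.w2

noncomputable def sx : ℝ⟦X⟧ := C (c : ℝ) + C (D.ρ : ℝ) * X
noncomputable def sm : ℝ⟦X⟧ := if c = 0 then 1 else D.sx c

variable {P : Type} [TopologicalSpace P]

/-- The equation on the disc. -/
noncomputable def eqn (η : ℝ) {t ι : P → ℝ} (ht : Continuous t) (hι : Continuous ι)
    (h0 : c = 0 → ∀ p, ι p = 1 - (g.r η + t p)) : Eqn P where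
  A p u := AF (D.sm c) (C (g.e η)) (D.sx c) (C (g.r η + t p)) u
  N p u := NF (C (D.ρ : ℝ)) (D.sm c) (C (kI c : ℝ)) (C (g.r η + t p)) u
  κ := kI c
  k0 p := kI c * (g.r η + t p - 1)
  ι := ι
  dA p n y z h := by
    refine (h.mul_right (-2 * D.sm c * D.sx c * (C (g.r η + t p) + 2 + 2 * (y + z) -
      C (g.e η) * (C (g.r η + t p) + y + z)))).trans (dvd_of_eq ?_)
    unfold AF
    ring
  dN p n y z h := by
    refine (h.mul_right (C (D.ρ : ℝ) * (D.sm c * (C (g.r η + t p) + (1 + C (g.r η + t p)) * (y + z)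
      + y ^ 2 + y * z + z ^ 2) - (1 - C (kI c : ℝ))))).trans (dvd_of_eq ?_)
    unfold NF
    ring
  cA f hf := by
    have hr : CC fun p => C (g.r η + t p) := CC.C (by fun_prop)
    exact (CC.const _).mul ((CC.const _).sub ((CC.const _).mul ((((CC.const 1).add hf).mul
      (hr.add ((CC.const 2).mul hf))).sub ((CC.const _).mul (hf.mul (hr.add hf))))))
  cN f hf := by
    have hr : CC fun p => C (g.r η + t p) := CC.C (by fun_prop)
    exact (CC.const _).mul (((CC.const _).mul (((CC.const 1).add hf).mul (hf.mul (hr.add hf)))).sub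
      ((CC.const _).mul ((hf.add hr).sub (CC.const 1))))
  ck := by fun_prop
  cι := hι
  h0 p := by
    unfold kI
    split_ifs with h
    · rw [h0 h]; ring
    · simp

section
variable {η : ℝ} (hη : |η| ≤ 1) (m : ℕ)

lemma in_X : (cxS hη m).In D.w1 D.w2 D.bX X := Is.in is_vx

lemma in_p (k : ℕ) (L : List (List ℤ)) : (cxS hη m).In D.w1 D.w2 (D.bp k L) (pv (C η) X k L) :=
  Is.in (is_pC is_vx k L)

lemma in_d (k : ℕ) (L : List (List ℤ)) : (cxS hη m).In D.w1 D.w2 (D.bd k L) (pd (C η) X k L) :=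
  Is.in (is_dC is_vx k L)

lemma in_r (k : ℕ) (l : List ℤ) : (cxS hη m).In D.w1 D.w2 (D.br k l) (C (rv η k l)) := by
  rw [← rv_C]
  exact Is.in (is_rC k l)

lemma in_int (k : ℤ) : (cxS hη m).In D.w1 D.w2 (ex (CP.int k)) (C (k : ℝ)) := by
  rw [map_intCast]
  exact Is.in (is_int k)

lemma in_t {t : ℝ} {n : ℕ} (h : |t| ≤ n / SC) : (cxS hη m).In D.w1 D.w2 (CP.int 0, n) (C t) :=
  Cx.in_zero _ ((nm_C zero_le_one t).trans h)

lemma in_cst : List.Forall₂ ((cxS hη m).In D.w1 D.w2) (D.cst g c)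
    [C (g.e η), D.sx c, D.sm c, C (kI c : ℝ), C (D.ρ : ℝ)] := by
  have h1 : Is D.w1 D.w2 (C η) X (D.cx c) (D.sx c) := (is_rat c).add ((is_rat D.ρ).mul is_vx)
  refine .cons (Is.in (g.is_e η)) (.cons (Is.in (K := cxS hη m) h1) (.cons ?_
    (.cons (D.in_int hη m _) (.cons (Is.in (is_rat D.ρ)) .nil))))
  unfold sm
  split_ifs
  · simpa using D.in_int hη m 1
  · exact Is.in (K := cxS hη m) h1

lemma in_bb {t : ℝ} (h : |t| ≤ g.T0 / SC) : (cxS hη m).In D.w1 D.w2 (D.bb g)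
    (pv (C η) X D.kv D.V + C t * pv (C η) X D.kw D.Z) :=
  (D.in_p hη m _ _).add ((D.in_t hη m h).mul (D.in_p hη m _ _))

lemma in_bb' {t : ℝ} (h : |t| ≤ g.T0 / SC) : (cxS hη m).In D.w1 D.w2 (D.bb' g)
    (pd (C η) X D.kv D.V + C t * pd (C η) X D.kw D.Z) :=
  (D.in_d hη m _ _).add ((D.in_t hη m h).mul (D.in_d hη m _ _))

lemma in_bR {t : ℝ} (h : |t| ≤ g.T0 / SC) : (cxS hη m).In D.w1 D.w2 (D.bR g) (C (g.r η + t)) := by
  rw [map_add]
  exact (D.in_r hη m _ _).add (D.in_t hη m h)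

lemma in_α : (cxS hη m).In D.w1 D.w2 (D.α c)
    (C ((kI c : ℝ) * constantCoeff (pv (C η) X D.kw D.W))) := by
  rw [map_mul, pv_zero]
  exact (D.in_int hη m _).mul (D.in_r hη m _ _)

end

lemma du_map {A : Type} [CommRing A] [Algebra ℝ A] {K : Cx A} {w1 w2 : ℕ} {Δ : A} {l : List BL}
    {x : List A} (h : List.Forall₂ (K.In w1 w2) l x) :
    List.Forall₂ (K.Du w1 w2 Δ) (l.map fun b => (b, zB)) (x.map fun a => (a, a)) := by
  induction h with
  | nil => exact .nil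
  | cons h _ ih => exact .cons (du_const h) ih

lemma du_mk {A : Type} [CommRing A] [Algebra ℝ A] {K : Cx A} {w1 w2 : ℕ} {Δ x y d : A} {b b' : BL}
    (h1 : K.In w1 w2 b x) (h2 : K.In w1 w2 b y) (h3 : K.In w1 w2 b' d) (e : y - x = d * Δ) :
    K.Du w1 w2 Δ (b, b') (x, y) := ⟨h1, h2, d, e, h3⟩

/-- The normal form on the disc. -/
noncomputable def nf {η : ℝ} (hη : |η| ≤ 1) {t ι : P → ℝ} (ht : Continuous t) (hι : Continuous ι)
    (h0 : c = 0 → ∀ p, ι p = 1 - (g.r η + t p)) (hT : ∀ p, |t p| ≤ g.T0 / SC) (τ : ℕ)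
    (h1 : ∀ p, |ι p - (rv η D.kv (D.V.headD []) + t p * rv η D.kw (D.Z.headD []))| ≤ τ / SC) :
    Nf (D.eqn g c η ht hι h0) where
  b p := pv (C η) X D.kv D.V + C (t p) * pv (C η) X D.kw D.Z
  E := pv (C η) X D.kw D.E
  W := pv (C η) X D.kw D.W
  y := rv η D.kw D.y
  s := D.sI
  β := rv η D.kw D.β
  k := (max (D.k1 g c τ) (D.k2 g c τ) : ℕ) / SC
  r0 := D.r0 g c / SC
  τ' := τ / SC
  cb := (CC.const _).add ((CC.C ht).mul (CC.const _))
  E0 := by simp [pv_zero, E, rv, rowV, i2]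
  k0 := by positivity
  hι p := by simpa [pv_zero, eqn] using h1 p
  hB p δ hδ m := by
    have hz : |(0 : ℝ)| ≤ g.T0 / SC := by simp; positivity
    have hd : (cxS hη m).In D.w1 D.w2 (CP.int 0, τ) δ :=
      Cx.in_zero _ (le_trans (le_add_of_nonneg_right (nm_nonneg zero_le_one _)) (hδ m))
    have h0' : (cxS hη m).In D.w1 D.w2 (CP.int 0, τ) 0 :=
      Cx.in_zero _ ((cxS hη m).sn.zero.trans (by positivity))
    have iX := D.in_X hη m
    have iV := D.in_p hη m D.kv D.V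
    have iZ := D.in_p hη m D.kw D.Z
    have iE := D.in_p hη m D.kw D.E
    have iW := D.in_p hη m D.kw D.W
    have iV' := iX.mul (D.in_d hη m D.kv D.V)
    have iZ' := iX.mul (D.in_d hη m D.kw D.Z)
    have iE' := iX.mul (D.in_d hη m D.kw D.E)
    have ib := D.in_bb g hη m (hT p)
    have ib' := iX.mul (D.in_bb' g hη m (hT p))
    have ib0 := D.in_bb g hη m hz
    have ib0' := iX.mul (D.in_bb' g hη m hz)
    have iR := D.in_bR g hη m (hT p)
    have iR0 := D.in_bR g hη m hz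
    have il := D.in_cst g c hη m
    have iα := D.in_α c hη m
    have i1 := D.in_int hη m 1
    have tV := pv_th η D.kv D.V
    have tZ := pv_th η D.kw D.Z
    have tE := pv_th η D.kw D.E
    have zZ := D.in_r hη m D.kw (D.Z.headD [])
    obtain ⟨d1, e1, a1⟩ := exD_out (Δ := C (t p)) (.cons (du_const iX) (.cons
      (du_mk ib0 ib iZ (by rw [map_zero]; ring)) (.cons (du_mk ib0' ib' iZ' (by rw [map_zero]; ring))
        (.cons (du_mk iR0 iR i1 (by simp)) (du_map il))))) eG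
    obtain ⟨d2, e2, a2⟩ := exD_out (Δ := δ) (.cons (du_const iX) (.cons
      (du_mk (ib.add (iE.mul h0')) (ib.add (iE.mul hd)) iE (by ring)) (.cons
        (du_mk (ib'.add (iE'.mul h0')) (ib'.add (iE'.mul hd)) iE' (by ring))
        (.cons (du_const iR) (du_map il))))) eG
    have a3 := exB_in (.cons iX (.cons iV (.cons iV' (.cons (D.in_r hη m g.kr g.rl) il)))) eG
    have a4 := exB_in (.cons iX (.cons (ib.add (iE.mul hd)) (.cons iX (.cons iR il)))) eA
    have b1 := ((iα.add (iX.mul (D.in_r hη m D.kw D.β))).sub (iW.mul a2)).up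
    have b2 := (((D.in_r hη m D.kw D.y).sub (iX.mul (D.in_int hη m D.sI))).sub
      ((iW.mul a4).mul iE)).up
    have b3 := ((iW.mul a3).tight.add (((iW.mul a1).sub (iα.mul (zZ.add i1))).tight.mul
      (D.in_t hη m (hT p)))).up
    simp only [List.map_cons, List.map_nil, ev_eG, ev_eA] at e1 e2 b2 b3
    have k1 : ((D.k1 g c τ : ℕ) : ℝ) / SC ≤ (max (D.k1 g c τ) (D.k2 g c τ) : ℕ) / SC :=
      div_le_div_of_nonneg_right (Nat.cast_le.2 (le_max_left _ _)) SC_pos.le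
    have k2 : ((D.k2 g c τ : ℕ) : ℝ) / SC ≤ (max (D.k1 g c τ) (D.k2 g c τ) : ℕ) / SC :=
      div_le_div_of_nonneg_right (Nat.cast_le.2 (le_max_right _ _)) SC_pos.le
    refine ⟨pv (C η) X D.kw D.W * d2, _, (kI c : ℝ) * constantCoeff (pv (C η) X D.kw D.W) *
      (rv η D.kw (D.Z.headD []) + (1 : ℤ)) * t p, ?_, b1.trans k1, b2.trans k2,
        (le_of_eq (congrArg _ (sub_eq_iff_eq_add.2 rfl))).trans b3⟩
    simp only [Eqn.G, eqn, th_add, th_mul, th_C, tV, tZ, tE, Gl.r, map_mul, map_add, map_sub,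
      map_one, map_zero, zero_mul, mul_zero, add_zero] at e1 e2 ⊢
    linear_combination pv (C η) X D.kw D.W * (e1 + e2)

end Dk

end Pool.Agent.MP_187b32_an.PD.Disc
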